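import Pool.Agent.H57.NL.Defs

/-!
# Fields of convex cones in the cotangent bundle, and Lagrangians whose fibres are chains

MP_3dbb84_gt. `T*N = TN N` is the cotangent bundle of `N ⊂ ℝ^m` (covectors are tangent vectors, by the
scalar product).
-/

set_option autoImplicit false

open scoped ContDiff Topology RealInnerProductSpace

namespace Pool.Agent.H84.CK

open Pool.Agent.H57.NL

variable {m : ℕ}

/-- A field of closed convex cones `K_q = {v | (q, v) ∈ K}` in the fibres `T*_q N`, none of which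
contains a line; the total space `K` is closed. -/
structure ConeField (N : Set (E m)) (K : Set (E m × E m)) : Prop where
  sub : K ⊆ TN N
  closed : IsClosed K
  zero : ∀ q ∈ N, (q, 0) ∈ K
  add : ∀ q v w : E m, (q, v) ∈ K → (q, w) ∈ K → (q, v + w) ∈ K
  smul : ∀ (q v : E m) (t : ℝ), 0 ≤ t → (q, v) ∈ K → (q, t • v) ∈ K
  pointed : ∀ q v : E m, (q, v) ∈ K → (q, -v) ∈ K → v = 0

/-- Each fibre `S ∩ T*_q N` is totally ordered by the relation `p ≤ p' ↔ p' - p ∈ K_q`, and the
vertical tangent vectors of `S` over `q` lie in `K_q` or `-K_q`. -/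
structure Chains (K S : Set (E m × E m)) : Prop where
  total : ∀ q p p' : E m, (q, p) ∈ S → (q, p') ∈ S → (q, p' - p) ∈ K ∨ (q, p - p') ∈ K
  vert : ∀ q p b : E m, (q, p) ∈ S → (0, b) ∈ Tan S (q, p) → (q, b) ∈ K ∨ (q, -b) ∈ K

end Pool.Agent.H84.CK
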