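import Pool.Agent.H84.CK.Uni
import Pool.Agent.H2.TI.IMain

/-!
# Exact Lagrangians whose fibres are chains for a field of cones
-/

set_option autoImplicit false

open scoped ContDiff Topology RealInnerProductSpace
open Set Filter

namespace Pool.Agent.H84.CK

open Pool.Agent.H57.NL Pool.Agent.H2.TI

variable {m n : ℕ} {N : Set (E m)} {Ψ Ψ' : ℝ → E m × E m → E m × E m}
  {H : ℝ → E m × E m → ℝ} {V : E m → E m}

theorem vert_mem (hN : IsSubmfd n N) (hc : IsClosed N) {z : E m × E m} (hz : z ∈ TN N) {b : E m}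
    (hb : (0, b) ∈ Tan (TN N) z) : b ∈ Tan N z.1 := by
  obtain ⟨Pr, hPr⟩ := exists_proj hN hc
  have h := tan_snd hN hPr hz hb
  simp only [map_zero, _root_.zero_apply, zero_add] at h
  rw [h]
  exact hPr.mem _ hz.1 _

theorem tan_mono {X : Type*} [NormedAddCommGroup X] [NormedSpace ℝ X] {A B : Set X} (h : A ⊆ B)
    {x v : X} (hv : v ∈ Tan A x) : v ∈ Tan B x := by
  obtain ⟨γ, h0, hS, hd⟩ := hv
  exact ⟨γ, h0, hS.mono fun t ht => h ht, hd⟩

/-- the cone field of a vector field -/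
def KV (N : Set (E m)) (V : E m → E m) (ε : ℝ) : Set (E m × E m) :=
  {z | z ∈ TN N ∧ ε * ‖z.2‖ ≤ ⟪z.2, V z.1⟫}

theorem coneField_KV (hN : IsSubmfd n N) (hc : IsClosed N) (hV : Continuous V) {ε : ℝ}
    (hε : 0 < ε) : ConeField N (KV N V ε) where
  sub := fun z hz => hz.1
  closed := by
    have h1 : IsClosed {z : E m × E m | z ∈ TN N} := hN.isClosed_tan hc
    have h2 : IsClosed {z : E m × E m | ε * ‖z.2‖ ≤ ⟪z.2, V z.1⟫} :=
      isClosed_le (by fun_prop) (continuous_snd.inner (hV.comp continuous_fst))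
    exact h1.inter h2
  zero := fun q hq => ⟨⟨hq, hN.tan_zero hq⟩, by simp⟩
  add := by
    rintro q v w ⟨⟨hq, hv⟩, h1⟩ ⟨⟨-, hw⟩, h2⟩
    refine ⟨⟨hq, hN.tan_add hq hv hw⟩, ?_⟩
    simp only at h1 h2 ⊢
    rw [inner_add_left]
    have := norm_add_le v w
    nlinarith
  smul := by
    rintro q v t ht ⟨⟨hq, hv⟩, h1⟩
    refine ⟨⟨hq, Tan.smul hv t⟩, ?_⟩
    simp only at h1 ⊢
    rw [real_inner_smul_left, norm_smul, Real.norm_of_nonneg ht]
    nlinarith [mul_le_mul_of_nonneg_left h1 ht]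
  pointed := by
    rintro q v ⟨-, h1⟩ ⟨-, h2⟩
    simp only at h1 h2
    rw [inner_neg_left, norm_neg] at h2
    have h3 : ε * ‖v‖ ≤ 0 := by linarith
    have h4 : ‖v‖ ≤ 0 := by
      by_contra h
      push Not at h
      nlinarith [mul_pos hε h]
    exact norm_le_zero_iff.1 h4

theorem chains_KV (hN : IsSubmfd n N) (hc : IsClosed N) {S : Set (E m × E m)} (hST : S ⊆ TN N)
    {ε : ℝ} (h1 : ∀ z ∈ S, ∀ z' ∈ S, z.1 = z'.1 → ε * ‖z'.2 - z.2‖ ≤ |⟪z'.2 - z.2, V z.1⟫|)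
    (h2 : ∀ z ∈ S, ∀ b : E m, (0, b) ∈ Tan S z → ε * ‖b‖ ≤ |⟪b, V z.1⟫|) :
    Chains (KV N V ε) S where
  total := by
    intro q p p' hp hp'
    have hq : q ∈ N := (hST hp).1
    have h := h1 _ hp _ hp' rfl
    simp only at h
    rcases le_total 0 ⟪p' - p, V q⟫ with h0 | h0
    · rw [abs_of_nonneg h0] at h
      exact Or.inl ⟨⟨hq, hN.tan_sub hq (hST hp').2 (hST hp).2⟩, h⟩
    · rw [abs_of_nonpos h0] at h
      refine Or.inr ⟨⟨hq, hN.tan_sub hq (hST hp).2 (hST hp').2⟩, ?_⟩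
      simp only
      rw [← neg_sub p' p, norm_neg, inner_neg_left]
      exact h
  vert := by
    intro q p b hp hb
    have hq : q ∈ N := (hST hp).1
    have hbT : b ∈ Tan N q := vert_mem hN hc (hST hp) (tan_mono hST hb)
    have h := h2 _ hp b hb
    simp only at h
    rcases le_total 0 ⟪b, V q⟫ with h0 | h0
    · rw [abs_of_nonneg h0] at h
      exact Or.inl ⟨⟨hq, hbT⟩, h⟩
    · rw [abs_of_nonpos h0] at h
      refine Or.inr ⟨⟨hq, ?_⟩, ?_⟩
      · have := Tan.smul hbT (-1 : ℝ)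
        rwa [neg_one_smul] at this
      · simp only
        rw [norm_neg, inner_neg_left]
        exact h

theorem KV_mono {ε ε' : ℝ} (h : ε ≤ ε') : KV N V ε' ⊆ KV N V ε := by
  rintro z ⟨h1, h2⟩
  exact ⟨h1, (mul_le_mul_of_nonneg_right h (norm_nonneg _)).trans h2⟩

/-- **Theorem.** Exact Lagrangians whose fibres are chains are Hamiltonian isotopic to the zero
section. -/
theorem chains_iso (hN : ClosedMfd n N ⊥) {K : Set (E m × E m)} (hK : ConeField N K)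
    {S : Set (E m × E m)} {f : E m × E m → ℝ} (hL : ExactLag n N ⊥ S f) (hS : Chains K S) :
    ∃ (Ψ Ψ' : ℝ → E m × E m → E m × E m) (H : ℝ → E m × E m → ℝ), HamIso N Ψ Ψ' H ∧
      Ψ 1 '' {z | z.1 ∈ N ∧ z.2 = 0} = S ∧
      ∃ K' : Set (E m × E m), ConeField N K' ∧ K ⊆ K' ∧
        ∀ s ∈ Icc (0 : ℝ) 1, Chains K' (Ψ s '' {z | z.1 ∈ N ∧ z.2 = 0}) := by
  have hc : IsCompact N := closedMfd_compact hN
  obtain ⟨V, hV, hT, hpos⟩ := exists_field hN.sub hN.closed hK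
  obtain ⟨Ψ, Ψ', H, hI, h1, hE⟩ := iso_main hN hV hT hL (emb_of_chains hS hpos)
  obtain ⟨ε₁, h₁, H₁⟩ := uni_chord hN.sub hc hV hI hE
  obtain ⟨ε₂, h₂, H₂⟩ := uni_vert hN.sub hc hV hI hE
  obtain ⟨ε₃, h₃, H₃⟩ := uni_cone hc hK hV.continuous hpos
  have hε : 0 < min ε₁ (min ε₂ ε₃) := lt_min h₁ (lt_min h₂ h₃)
  have e1 : min ε₁ (min ε₂ ε₃) ≤ ε₁ := min_le_left _ _
  have e2 : min ε₁ (min ε₂ ε₃) ≤ ε₂ := (min_le_right _ _).trans (min_le_left _ _)
  have e3 : min ε₁ (min ε₂ ε₃) ≤ ε₃ := (min_le_right _ _).trans (min_le_right _ _)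
  refine ⟨Ψ, Ψ', H, hI, h1, KV N V (min ε₁ (min ε₂ ε₃)),
    coneField_KV hN.sub hN.closed hV.continuous hε, ?_, ?_⟩
  · rintro ⟨q, v⟩ hz
    exact KV_mono e3 ⟨hK.sub hz, H₃ q v hz⟩
  · intro s hs
    have hsub : L N Ψ s ⊆ TN N := by
      rintro _ ⟨z, hz, rfl⟩
      exact (hI.diffeo s).maps z ⟨hz.1, by rw [hz.2]; exact hN.sub.tan_zero hz.1⟩
    refine chains_KV hN.sub hN.closed hsub (fun z hz z' hz' h => ?_) (fun z hz b hb => ?_)
    · exact (mul_le_mul_of_nonneg_right e1 (norm_nonneg _)).trans (H₁ s hs z hz z' hz' h)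
    · exact (mul_le_mul_of_nonneg_right e2 (norm_nonneg _)).trans (H₂ s hs z hz b hb)

end Pool.Agent.H84.CK
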