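import Pool.Agent.H57.NL.Slice

set_option autoImplicit false

open scoped ContDiff Topology RealInnerProductSpace
open Set Filter

namespace Pool.Agent.H84.CK

open Pool.Agent.H57.NL

variable {V W : Type*} [NormedAddCommGroup V] [NormedSpace ℝ V] [NormedAddCommGroup W]
  [NormedSpace ℝ W]

/-- the difference quotients of a strictly differentiable map along secants -/
theorem secant_map {f : V → W} {D : V →L[ℝ] W} {x : V} (hf : HasStrictFDerivAt f D x)
    {a b : ℕ → V} (ha : Tendsto a atTop (𝓝 x)) (hb : Tendsto b atTop (𝓝 x)) {w : V} {c : ℕ → ℝ}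
    (hc : ∀ k, ‖c k‖ * ‖b k - a k‖ ≤ 1)
    (hw : Tendsto (fun k => c k • (b k - a k)) atTop (𝓝 w)) :
    Tendsto (fun k => c k • (f (b k) - f (a k))) atTop (𝓝 (D w)) := by
  have h1 : Tendsto (fun k => (b k, a k)) atTop (𝓝 (x, x)) := hb.prodMk_nhds ha
  have h2 := hf.isLittleO.comp_tendsto h1
  have h3 : Tendsto (fun k => D (c k • (b k - a k))) atTop (𝓝 (D w)) :=
    (D.continuous.tendsto w).comp hw
  have h4 : Tendsto (fun k => c k • (f (b k) - f (a k) - D (b k - a k))) atTop (𝓝 0) := by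
    rw [Metric.tendsto_nhds]
    intro ε hε
    have h5 := h2.def (half_pos hε)
    filter_upwards [h5] with k hk
    simp only [Function.comp] at hk
    rw [dist_zero_right, norm_smul]
    calc ‖c k‖ * ‖f (b k) - f (a k) - D (b k - a k)‖
        ≤ ‖c k‖ * (ε / 2 * ‖b k - a k‖) := by gcongr
      _ = ε / 2 * (‖c k‖ * ‖b k - a k‖) := by ring
      _ ≤ ε / 2 * 1 := by gcongr; exact hc k
      _ < ε := by linarith
  have h6 := h4.add h3
  rw [zero_add] at h6
  refine h6.congr fun k => ?_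
  rw [map_smul, ← smul_add, sub_add_cancel]

/-- limits of secant directions are tangent vectors -/
theorem secant_tan [FiniteDimensional ℝ V] {n : ℕ} {S : Set V} (hS : IsSubmfd n S) {x : V} (hx : x ∈ S)
    {a b : ℕ → V} (haS : ∀ k, a k ∈ S) (hbS : ∀ k, b k ∈ S)
    (ha : Tendsto a atTop (𝓝 x)) (hb : Tendsto b atTop (𝓝 x)) {w : V} {c : ℕ → ℝ}
    (hc : ∀ k, ‖c k‖ * ‖b k - a k‖ ≤ 1)
    (hw : Tendsto (fun k => c k • (b k - a k)) atTop (𝓝 w)) : w ∈ Tan S x := by
  obtain ⟨e, A, hxe, hs⟩ := hS.slice hx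
  rw [hs.mem_tan hxe hx]
  have hAc : IsClosed (A : Set V) := A.closed_of_finiteDimensional
  have h1 := secant_map ((hs.cd hxe).hasStrictFDerivAt (by simp)) ha hb hc hw
  refine hAc.mem_of_tendsto h1 ?_
  filter_upwards [ha.eventually (e.open_source.mem_nhds hxe),
    hb.eventually (e.open_source.mem_nhds hxe)] with k h2 h3
  exact A.smul_mem _ (A.sub_mem ((hs.iff _ h3).1 (hbS k)) ((hs.iff _ h2).1 (haS k)))

end Pool.Agent.H84.CK
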