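import Pool.Agent.H84.CK.Defs
import Pool.Agent.H2.TI.SProj
import Pool.Agent.H2.TI.NDefs

set_option autoImplicit false

open scoped ContDiff Topology RealInnerProductSpace Manifold
open Set Filter

namespace Pool.Agent.H84.CK

open Pool.Agent.H57.NL Pool.Agent.H2.TI

variable {m n : ℕ} {N : Set (E m)} {K S : Set (E m × E m)}

/-- the cone over `q` -/
def cone (hK : ConeField N K) {q : E m} (hq : q ∈ N) : ProperCone ℝ (E m) where
  carrier := {v | (q, v) ∈ K}
  add_mem' := fun {v w} hv hw => hK.add q v w hv hw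
  zero_mem' := hK.zero q hq
  smul_mem' := fun c v hv => hK.smul q v c c.2 hv
  isClosed' := hK.closed.preimage (by fun_prop : Continuous fun v : E m => ((q, v) : E m × E m))

theorem mem_cone (hK : ConeField N K) {q : E m} (hq : q ∈ N) {v : E m} :
    v ∈ cone hK hq ↔ (q, v) ∈ K := Iff.rfl

/-- a covector positive on the cone over `q` -/
theorem exists_pos (hK : ConeField N K) {q : E m} (hq : q ∈ N) :
    ∃ u : E m, ∀ v, (q, v) ∈ K → v ≠ 0 → 0 < ⟪v, u⟫ := by
  classical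
  set A : Set (E m) := {v | (q, v) ∈ K ∧ v ∈ Metric.sphere (0 : E m) 1} with hA
  have hAc : IsCompact A := by
    have h1 : IsClosed {v : E m | (q, v) ∈ K} := hK.closed.preimage (by fun_prop)
    exact (isCompact_sphere (0 : E m) 1).inter_left h1
  have hy : ∀ v ∈ A, ∃ y : E m, (∀ x, (q, x) ∈ K → 0 ≤ ⟪x, y⟫) ∧ 0 < ⟪v, y⟫ := by
    rintro v ⟨hv, hv1⟩
    have hv0 : v ≠ 0 := by
      rintro rfl
      simp at hv1
    have h1 : -v ∉ cone hK hq := fun h => hv0 (hK.pointed q v hv h)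
    obtain ⟨y, hy1, hy2⟩ := (cone hK hq).hyperplane_separation' h1
    refine ⟨y, fun x hx => hy1 x hx, ?_⟩
    rw [inner_neg_left] at hy2
    linarith
  choose! y hy1 hy2 using hy
  obtain ⟨t, ht, htA⟩ := hAc.elim_nhds_subcover (fun v => {x | 0 < ⟪x, y v⟫}) (fun v hv => by
    have : IsOpen {x : E m | 0 < ⟪x, y v⟫} := isOpen_lt continuous_const (by fun_prop)
    exact this.mem_nhds (hy2 v hv))
  refine ⟨∑ v ∈ t, y v, fun x hx hx0 => ?_⟩
  have hn : 0 < ‖x‖ := norm_pos_iff.2 hx0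
  have hxA : ‖x‖⁻¹ • x ∈ A := by
    refine ⟨hK.smul q x _ (by positivity) hx, ?_⟩
    rw [mem_sphere_zero_iff_norm, norm_smul, norm_inv, norm_norm, inv_mul_cancel₀ hn.ne']
  obtain ⟨v, hv, hvx⟩ := mem_iUnion₂.1 (htA hxA)
  rw [inner_sum]
  refine Finset.sum_pos' (fun w hw => hy1 w (ht w hw) x hx) ⟨v, hv, ?_⟩
  have h1 : 0 < ⟪‖x‖⁻¹ • x, y v⟫ := hvx
  rw [real_inner_smul_left] at h1
  exact (pos_iff_pos_of_mul_pos h1).1 (by positivity)

/-- a covector positive on the cones near `q` -/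
theorem exists_pos_nhds (hK : ConeField N K) {q : E m} (hq : q ∈ N) :
    ∃ u : E m, ∀ᶠ x in 𝓝 q, ∀ v, (x, v) ∈ K → v ≠ 0 → 0 < ⟪v, u⟫ := by
  obtain ⟨u, hu⟩ := exists_pos hK hq
  refine ⟨u, ?_⟩
  by_contra hc
  rw [Filter.not_eventually] at hc
  obtain ⟨x, hx, hxv⟩ := Filter.exists_seq_forall_of_frequently hc
  push Not at hxv
  choose v hv hv0 hvu using hxv
  have hn : ∀ k, 0 < ‖v k‖ := fun k => norm_pos_iff.2 (hv0 k)
  have hs : ∀ k, ‖v k‖⁻¹ • v k ∈ Metric.sphere (0 : E m) 1 := fun k => by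
    rw [mem_sphere_zero_iff_norm, norm_smul, norm_inv, norm_norm, inv_mul_cancel₀ (hn k).ne']
  obtain ⟨w, hw, φ, hφ, hwt⟩ := (isCompact_sphere (0 : E m) 1).tendsto_subseq hs
  have h1 : Tendsto (fun k => (x (φ k), ‖v (φ k)‖⁻¹ • v (φ k))) atTop (𝓝 (q, w)) :=
    (hx.comp hφ.tendsto_atTop).prodMk_nhds hwt
  have h2 : (q, w) ∈ K := hK.closed.mem_of_tendsto h1 (Eventually.of_forall fun k =>
    hK.smul _ _ _ (by have := hn (φ k); positivity) (hv (φ k)))
  have hw0 : w ≠ 0 := by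
    rintro rfl
    simp at hw
  have h3 := hu w h2 hw0
  have h4 : ⟪w, u⟫ ≤ 0 := by
    have h5 : Tendsto (fun k => ⟪‖v (φ k)‖⁻¹ • v (φ k), u⟫) atTop (𝓝 ⟪w, u⟫) :=
      hwt.inner tendsto_const_nhds
    refine le_of_tendsto h5 (Eventually.of_forall fun k => ?_)
    rw [real_inner_smul_left]
    have := hn (φ k)
    exact mul_nonpos_of_nonneg_of_nonpos (by positivity) (hvu (φ k))
  linarith

/-- a smooth vector field, tangent to `N`, positive on all the cones -/
theorem exists_field (hN : IsSubmfd n N) (hc : IsClosed N) (hK : ConeField N K) :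
    ∃ V : E m → E m, ContDiff ℝ ∞ V ∧ (∀ q ∈ N, V q ∈ Tan N q) ∧
      ∀ q v, (q, v) ∈ K → v ≠ 0 → 0 < ⟪v, V q⟫ := by
  obtain ⟨Pr, hPr⟩ := exists_proj hN hc
  let t : E m → Set (E m) := fun x => {u | ∀ v, (x, v) ∈ K → v ≠ 0 → 0 < ⟪v, u⟫}
  have ht : ∀ x, Convex ℝ (t x) := by
    intro x u hu w hw a b ha hb hab v hv hv0
    rw [inner_add_right, real_inner_smul_right, real_inner_smul_right]
    have h1 := hu v hv hv0
    have h2 := hw v hv hv0
    rcases ha.eq_or_lt with rfl | ha'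
    · have : b = 1 := by linarith
      subst this
      linarith
    · nlinarith [mul_pos ha' h1, mul_nonneg hb h2.le]
  obtain ⟨g, hg⟩ := exists_contMDiffMap_forall_mem_convex_of_local_const (I := 𝓘(ℝ, E m))
    (n := (⊤ : ℕ∞)) ht (fun x => by
      by_cases hx : x ∈ N
      · exact exists_pos_nhds hK hx
      · refine ⟨0, ?_⟩
        filter_upwards [hc.isOpen_compl.mem_nhds hx] with y hy v hv
        exact absurd (hK.sub hv).1 hy)
  have hgs : ContDiff ℝ ∞ (g : E m → E m) := g.contMDiff.contDiff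
  refine ⟨fun q => Pr q (g q), hPr.smooth.clm_apply hgs, fun q hq => hPr.mem q hq _,
    fun q v hv hv0 => ?_⟩
  have h1 := hPr.orth q (hK.sub hv).1 (g q) v (hK.sub hv).2
  rw [real_inner_comm, h1, real_inner_comm]
  exact hg q v hv hv0

theorem emb_of_chains (hS : Chains K S) {V : E m → E m}
    (hV : ∀ q v, (q, v) ∈ K → v ≠ 0 → 0 < ⟪v, V q⟫) : EmbN V S where
  inj := by
    rintro ⟨q, p⟩ hz ⟨q', p'⟩ hz' hqq hpp
    simp only at hqq hpp
    subst hqq
    by_contra hne
    have hne' : p' - p ≠ 0 := fun h => hne (by rw [sub_eq_zero.1 h])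
    have hne'' : p - p' ≠ 0 := fun h => hne (by rw [sub_eq_zero.1 h])
    rcases hS.total q p p' hz hz' with h | h
    · have := hV q _ h hne'
      rw [inner_sub_left] at this
      linarith
    · have := hV q _ h hne''
      rw [inner_sub_left] at this
      linarith
  imm := by
    rintro ⟨q, p⟩ hz b hb h0
    simp only at h0
    by_contra hb0
    rcases hS.vert q p b hz hb with h | h
    · exact absurd h0 (hV q _ h hb0).ne'
    · have := hV q _ h (neg_ne_zero.2 hb0)
      rw [inner_neg_left] at this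
      linarith

end Pool.Agent.H84.CK
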