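import Pool.Agent.H84.CK.Sec
import Pool.Agent.H84.CK.Sep
import Pool.Agent.H2.TI.HDefs


/-!
# Uniform cone field along the isotopy
-/

set_option autoImplicit false

open scoped ContDiff Topology RealInnerProductSpace
open Set Filter

namespace Pool.Agent.H84.CK

open Pool.Agent.H57.NL Pool.Agent.H2.TI

variable {m n : ℕ} {N : Set (E m)} {Ψ Ψ' : ℝ → E m × E m → E m × E m}
  {H : ℝ → E m × E m → ℝ} {V : E m → E m}

/-- the image of the zero section at time `s` -/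
def L (N : Set (E m)) (Ψ : ℝ → E m × E m → E m × E m) (s : ℝ) : Set (E m × E m) :=
  Ψ s '' {z | z.1 ∈ N ∧ z.2 = 0}

/-- the parametrisation -/
def F (Ψ : ℝ → E m × E m → E m × E m) (x : ℝ × E m) : E m × E m := Ψ x.1 (x.2, 0)

theorem F_smooth (hI : HamIso N Ψ Ψ' H) : ContDiff ℝ ∞ (F Ψ) :=
  hI.smooth.comp (contDiff_fst.prodMk (contDiff_snd.prodMk contDiff_const))

theorem zero_mem (hN : IsSubmfd n N) {q : E m} (hq : q ∈ N) : ((q, 0) : E m × E m) ∈ TN N :=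
  ⟨hq, hN.tan_zero hq⟩

theorem F_mem {s : ℝ} {q : E m} (hq : q ∈ N) : F Ψ (s, q) ∈ L N Ψ s := ⟨(q, 0), ⟨hq, rfl⟩, rfl⟩

theorem mem_L {s : ℝ} {z : E m × E m} (hz : z ∈ L N Ψ s) : ∃ q ∈ N, F Ψ (s, q) = z := by
  obtain ⟨⟨q, p⟩, ⟨hq, hp⟩, rfl⟩ := hz
  simp only at hq hp
  subst hp
  exact ⟨q, hq, rfl⟩

theorem F_inj (hN : IsSubmfd n N) (hI : HamIso N Ψ Ψ' H) {s : ℝ} {q q' : E m} (hq : q ∈ N)
    (hq' : q' ∈ N) (h : F Ψ (s, q) = F Ψ (s, q')) : q = q' := by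
  have h1 := (hI.diffeo s).left _ (zero_mem hN hq)
  have h2 := (hI.diffeo s).left _ (zero_mem hN hq')
  have h3 : ((q, 0) : E m × E m) = (q', 0) := by
    rw [← h1, ← h2]
    exact congrArg (Ψ' s) h
  exact congrArg Prod.fst h3

theorem F_curve (hI : HamIso N Ψ Ψ' H) {s : ℝ} {γ : ℝ → E m} {w : E m} (hγ : HasDerivAt γ w 0) :
    HasDerivAt (fun t => F Ψ (s, γ t)) (fderiv ℝ (F Ψ) (s, γ 0) (0, w)) 0 := by
  have h1 : HasFDerivAt (F Ψ) (fderiv ℝ (F Ψ) (s, γ 0)) ((fun t => (s, γ t)) (0 : ℝ)) :=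
    (((F_smooth hI).differentiable (by simp)) _).hasFDerivAt
  exact h1.comp_hasDerivAt (0 : ℝ) ((hasDerivAt_const (0 : ℝ) s).prodMk hγ)

theorem F_tan (hI : HamIso N Ψ Ψ' H) {s : ℝ} {q w : E m} (hw : w ∈ Tan N q) :
    fderiv ℝ (F Ψ) (s, q) (0, w) ∈ Tan (L N Ψ s) (F Ψ (s, q)) := by
  obtain ⟨γ, h0, hS, hd⟩ := hw
  subst h0
  refine ⟨fun t => F Ψ (s, γ t), rfl, ?_, F_curve hI hd⟩
  filter_upwards [hS] with t ht
  exact F_mem ht

theorem F_ker (hN : IsSubmfd n N) (hI : HamIso N Ψ Ψ' H) {s : ℝ} {q w : E m} (hq : q ∈ N)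
    (hw : w ∈ Tan N q) (h : fderiv ℝ (F Ψ) (s, q) (0, w) = 0) : w = 0 := by
  obtain ⟨γ, h0, hS, hd⟩ := hw
  subst h0
  have h1 := F_curve (s := s) hI hd
  rw [h] at h1
  have hs' : ContDiff ℝ ∞ (Ψ' s) := hI.smooth'.comp (contDiff_const.prodMk contDiff_id)
  have h2 : HasFDerivAt (Ψ' s) (fderiv ℝ (Ψ' s) (F Ψ (s, γ 0))) ((fun t => F Ψ (s, γ t)) (0 : ℝ)) :=
    (hs'.differentiable (by simp) _).hasFDerivAt
  have h3 := h2.comp_hasDerivAt (0 : ℝ) h1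
  rw [map_zero] at h3
  have h4 : (Ψ' s ∘ fun t => F Ψ (s, γ t)) =ᶠ[𝓝 0] fun t => (γ t, 0) := by
    filter_upwards [hS] with t ht
    exact (hI.diffeo s).left _ (zero_mem hN ht)
  have h5 : HasDerivAt (fun t => ((γ t, 0) : E m × E m)) (w, 0) 0 := hd.prodMk (hasDerivAt_const _ _)
  have h6 := (h3.congr_of_eventuallyEq h4.symm).unique h5
  exact (congrArg Prod.fst h6).symm

/-- tangent vectors of the image come from tangent vectors of `N` -/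
theorem tan_L (hN : IsSubmfd n N) (hI : HamIso N Ψ Ψ' H) {s : ℝ} {q : E m} (hq : q ∈ N)
    {v : E m × E m} (hv : v ∈ Tan (L N Ψ s) (F Ψ (s, q))) :
    ∃ w ∈ Tan N q, fderiv ℝ (F Ψ) (s, q) (0, w) = v := by
  obtain ⟨γ, h0, hS, hd⟩ := hv
  have hs' : ContDiff ℝ ∞ (Ψ' s) := hI.smooth'.comp (contDiff_const.prodMk contDiff_id)
  have h2 : HasFDerivAt (Ψ' s) (fderiv ℝ (Ψ' s) (γ 0)) (γ 0) :=
    (hs'.differentiable (by simp) _).hasFDerivAt
  have h3 : HasDerivAt (Ψ' s ∘ γ) (fderiv ℝ (Ψ' s) (γ 0) v) 0 := h2.comp_hasDerivAt (0 : ℝ) hd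
  have h4 : ∀ᶠ t in 𝓝 (0 : ℝ), ((Ψ' s ∘ γ) t).1 ∈ N ∧ F Ψ (s, ((Ψ' s ∘ γ) t).1) = γ t := by
    filter_upwards [hS] with t ht
    obtain ⟨q', hq', h5⟩ := mem_L ht
    have h6 : (Ψ' s ∘ γ) t = (q', 0) := by
      show Ψ' s (γ t) = _
      rw [← h5]
      exact (hI.diffeo s).left _ (zero_mem hN hq')
    rw [h6]
    exact ⟨hq', h5⟩
  have h7 : ((Ψ' s ∘ γ) 0).1 = q := by
    show (Ψ' s (γ 0)).1 = q
    rw [h0]
    exact congrArg Prod.fst ((hI.diffeo s).left _ (zero_mem hN hq))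
  refine ⟨(fderiv ℝ (Ψ' s) (γ 0) v).1, ⟨fun t => ((Ψ' s ∘ γ) t).1, h7, h4.mono fun t ht => ht.1,
    h3.fst⟩, ?_⟩
  have h8 := F_curve (s := s) hI h3.fst
  rw [h7] at h8
  exact (h8.congr_of_eventuallyEq (h4.mono fun t ht => ht.2.symm)).unique hd

/-- the key point -/
theorem key (hN : IsSubmfd n N) (hI : HamIso N Ψ Ψ' H) {s : ℝ} (hE : EmbN V (L N Ψ s))
    {q w : E m} (hq : q ∈ N) (hw : w ∈ Tan N q) (h1 : (fderiv ℝ (F Ψ) (s, q) (0, w)).1 = 0)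
    (h2 : ⟪(fderiv ℝ (F Ψ) (s, q) (0, w)).2, V (F Ψ (s, q)).1⟫ = 0) : w = 0 := by
  have h3 := F_tan (s := s) hI hw
  have h4 : fderiv ℝ (F Ψ) (s, q) (0, w) = (0, (fderiv ℝ (F Ψ) (s, q) (0, w)).2) :=
    Prod.ext h1 rfl
  rw [h4] at h3
  have h5 := hE.imm _ (F_mem hq) _ h3 h2
  exact F_ker hN hI hq hw (Prod.ext h1 h5)

/-- compactness: limits of data violating the estimate with constants tending to `0` -/
theorem lim_zero {u : ℕ → ℝ} {a : ℕ → ℝ} {l A : ℝ} (hu : Tendsto u atTop (𝓝 l))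
    (ha : Tendsto a atTop (𝓝 A)) (h : ∀ k, |u k| ≤ 1 / ((k : ℝ) + 1) * a k) : l = 0 := by
  have h1 : Tendsto (fun k : ℕ => 1 / ((k : ℝ) + 1) * a k) atTop (𝓝 (0 * A)) :=
    tendsto_one_div_add_atTop_nhds_zero_nat.mul ha
  rw [zero_mul] at h1
  have h2 : Tendsto (fun k => |u k|) atTop (𝓝 0) :=
    squeeze_zero (fun k => abs_nonneg _) h h1
  have h3 := tendsto_nhds_unique hu.abs h2
  exact abs_eq_zero.1 h3

theorem uni_chord (hN : IsSubmfd n N) (hc : IsCompact N) (hV : ContDiff ℝ ∞ V)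
    (hI : HamIso N Ψ Ψ' H) (hE : ∀ s ∈ Icc (0 : ℝ) 1, EmbN V (L N Ψ s)) :
    ∃ ε : ℝ, 0 < ε ∧ ∀ s ∈ Icc (0 : ℝ) 1, ∀ z ∈ L N Ψ s, ∀ z' ∈ L N Ψ s, z.1 = z'.1 →
      ε * ‖z'.2 - z.2‖ ≤ |⟪z'.2 - z.2, V z.1⟫| := by
  by_contra hcon
  push Not at hcon
  have h0 : ∀ k : ℕ, ∃ s ∈ Icc (0 : ℝ) 1, ∃ q ∈ N, ∃ q' ∈ N, (F Ψ (s, q)).1 = (F Ψ (s, q')).1 ∧
      |⟪(F Ψ (s, q')).2 - (F Ψ (s, q)).2, V (F Ψ (s, q)).1⟫| <
        1 / ((k : ℝ) + 1) * ‖(F Ψ (s, q')).2 - (F Ψ (s, q)).2‖ := by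
    intro k
    obtain ⟨s, hs, z, hz, z', hz', h1, h2⟩ := hcon (1 / ((k : ℝ) + 1)) (by positivity)
    obtain ⟨q, hq, rfl⟩ := mem_L hz
    obtain ⟨q', hq', rfl⟩ := mem_L hz'
    exact ⟨s, hs, q, hq, q', hq', h1, h2⟩
  choose s hs q hq q' hq' h1 h2 using h0
  have hne : ∀ k, q' k - q k ≠ 0 := by
    intro k h
    have h3 := h2 k
    rw [sub_eq_zero.1 h] at h3
    simp at h3
  have hn : ∀ k, 0 < ‖q' k - q k‖ := fun k => norm_pos_iff.2 (hne k)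
  have hsp : ∀ k, ‖q' k - q k‖⁻¹ • (q' k - q k) ∈ Metric.sphere (0 : E m) 1 := fun k => by
    rw [mem_sphere_zero_iff_norm, norm_smul, norm_inv, norm_norm, inv_mul_cancel₀ (hn k).ne']
  have hcomp : IsCompact (Icc (0 : ℝ) 1 ×ˢ (N ×ˢ (N ×ˢ Metric.sphere (0 : E m) 1))) :=
    isCompact_Icc.prod (hc.prod (hc.prod (isCompact_sphere _ _)))
  obtain ⟨⟨s₀, q₀, q₀', w⟩, ⟨hs₀, hq₀, hq₀', hw⟩, φ, hφ, hlim⟩ := hcomp.tendsto_subseq
    (x := fun k => (s k, q k, q' k, ‖q' k - q k‖⁻¹ • (q' k - q k)))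
    (fun k => ⟨hs k, hq k, hq' k, hsp k⟩)
  have ls : Tendsto (fun k => s (φ k)) atTop (𝓝 s₀) := (continuous_fst.tendsto _).comp hlim
  have lr := (continuous_snd.tendsto _).comp hlim
  have lq : Tendsto (fun k => q (φ k)) atTop (𝓝 q₀) := (continuous_fst.tendsto _).comp lr
  have lr' := (continuous_snd.tendsto _).comp lr
  have lq' : Tendsto (fun k => q' (φ k)) atTop (𝓝 q₀') := (continuous_fst.tendsto _).comp lr'
  have lw : Tendsto (fun k => ‖q' (φ k) - q (φ k)‖⁻¹ • (q' (φ k) - q (φ k))) atTop (𝓝 w) :=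
    (continuous_snd.tendsto _).comp lr'
  have hFc : Continuous (F Ψ) := (F_smooth hI).continuous
  have lF : Tendsto (fun k => F Ψ (s (φ k), q (φ k))) atTop (𝓝 (F Ψ (s₀, q₀))) :=
    (hFc.tendsto _).comp (ls.prodMk_nhds lq)
  have lF' : Tendsto (fun k => F Ψ (s (φ k), q' (φ k))) atTop (𝓝 (F Ψ (s₀, q₀'))) :=
    (hFc.tendsto _).comp (ls.prodMk_nhds lq')
  have lV : Tendsto (fun k => V (F Ψ (s (φ k), q (φ k))).1) atTop (𝓝 (V (F Ψ (s₀, q₀)).1)) :=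
    (hV.continuous.tendsto _).comp ((continuous_fst.tendsto _).comp lF)
  have hw0 : w ≠ 0 := by
    rintro rfl
    have : (0 : E m) ∈ Metric.sphere (0 : E m) 1 := hw
    simp at this
  have hφk : ∀ k : ℕ, (k : ℝ) ≤ (φ k : ℝ) := fun k => by exact_mod_cast hφ.id_le k
  have hmono : ∀ k : ℕ, 1 / ((φ k : ℝ) + 1) ≤ 1 / ((k : ℝ) + 1) := fun k =>
    one_div_le_one_div_of_le (by positivity) (by linarith [hφk k])
  by_cases hqq : q₀ = q₀'
  · subst hqq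
    have hwT : w ∈ Tan N q₀ := secant_tan hN hq₀ (a := fun k => q (φ k)) (b := fun k => q' (φ k))
      (c := fun k => ‖q' (φ k) - q (φ k)‖⁻¹) (fun k => hq _) (fun k => hq' _) lq lq'
      (fun k => by rw [norm_inv, norm_norm, inv_mul_cancel₀ (hn _).ne']) lw
    have hst : HasStrictFDerivAt (F Ψ) (fderiv ℝ (F Ψ) (s₀, q₀)) (s₀, q₀) :=
      (F_smooth hI).contDiffAt.hasStrictFDerivAt (by simp)
    have lD := secant_map hst (a := fun k => (s (φ k), q (φ k))) (b := fun k => (s (φ k), q' (φ k)))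
      (ls.prodMk_nhds lq) (ls.prodMk_nhds lq') (w := (0, w))
      (c := fun k => ‖q' (φ k) - q (φ k)‖⁻¹)
      (fun k => by
        have : ((s (φ k), q' (φ k)) : ℝ × E m) - (s (φ k), q (φ k)) = (0, q' (φ k) - q (φ k)) := by
          simp
        rw [this, norm_inv, norm_norm, Prod.norm_def]
        simp only [norm_zero]
        rw [max_eq_right (norm_nonneg _), inv_mul_cancel₀ (hn _).ne'])
      (by
        have : (fun k => ‖q' (φ k) - q (φ k)‖⁻¹ • (((s (φ k), q' (φ k)) : ℝ × E m) -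
            (s (φ k), q (φ k)))) = fun k => (0, ‖q' (φ k) - q (φ k)‖⁻¹ • (q' (φ k) - q (φ k))) := by
          funext k
          simp
        rw [this]
        exact tendsto_const_nhds.prodMk_nhds lw)
    refine hw0 (key hN hI (hE s₀ hs₀) hq₀ hwT ?_ ?_)
    · have l1 := (continuous_fst.tendsto _).comp lD
      refine tendsto_nhds_unique l1 (tendsto_const_nhds.congr fun k => ?_)
      simp only [Function.comp, Prod.smul_fst, Prod.fst_sub]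
      rw [h1 (φ k), sub_self, smul_zero]
    · have l2 := (continuous_snd.tendsto _).comp lD
      have l3 := l2.inner (𝕜 := ℝ) lV
      refine lim_zero l3 l2.norm fun k => ?_
      simp only [Function.comp, Prod.smul_snd, Prod.snd_sub]
      rw [real_inner_smul_left, abs_mul, norm_smul, abs_of_nonneg (by positivity : (0 : ℝ) ≤
        ‖q' (φ k) - q (φ k)‖⁻¹), norm_inv, norm_norm]
      have h3 := (h2 (φ k)).le.trans (mul_le_mul_of_nonneg_right (hmono k) (norm_nonneg _))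
      have h4 := mul_le_mul_of_nonneg_left h3 (by positivity : (0 : ℝ) ≤ ‖q' (φ k) - q (φ k)‖⁻¹)
      calc _ ≤ _ := h4
        _ = _ := by ring
  · have l2 : Tendsto (fun k => (F Ψ (s (φ k), q' (φ k))).2 - (F Ψ (s (φ k), q (φ k))).2) atTop
        (𝓝 ((F Ψ (s₀, q₀')).2 - (F Ψ (s₀, q₀)).2)) :=
      ((continuous_snd.tendsto _).comp lF').sub ((continuous_snd.tendsto _).comp lF)
    have h3 := lim_zero (l2.inner (𝕜 := ℝ) lV) l2.norm fun k =>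
      (h2 (φ k)).le.trans (mul_le_mul_of_nonneg_right (hmono k) (norm_nonneg _))
    have h4 : (F Ψ (s₀, q₀)).1 = (F Ψ (s₀, q₀')).1 :=
      tendsto_nhds_unique ((continuous_fst.tendsto _).comp lF)
        (((continuous_fst.tendsto _).comp lF').congr fun k => (h1 (φ k)).symm)
    have h5 := (hE s₀ hs₀).inj _ (F_mem hq₀) _ (F_mem hq₀') h4 (by
      rw [← h4]
      rw [inner_sub_left] at h3
      linarith)
    exact hqq (F_inj hN hI hq₀ hq₀' h5)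

theorem uni_vert (hN : IsSubmfd n N) (hc : IsCompact N) (hV : ContDiff ℝ ∞ V)
    (hI : HamIso N Ψ Ψ' H) (hE : ∀ s ∈ Icc (0 : ℝ) 1, EmbN V (L N Ψ s)) :
    ∃ ε : ℝ, 0 < ε ∧ ∀ s ∈ Icc (0 : ℝ) 1, ∀ z ∈ L N Ψ s, ∀ b : E m, (0, b) ∈ Tan (L N Ψ s) z →
      ε * ‖b‖ ≤ |⟪b, V z.1⟫| := by
  by_contra hcon
  push Not at hcon
  have h0 : ∀ k : ℕ, ∃ s ∈ Icc (0 : ℝ) 1, ∃ q ∈ N, ∃ w ∈ Tan N q,
      (fderiv ℝ (F Ψ) (s, q) (0, w)).1 = 0 ∧
      |⟪(fderiv ℝ (F Ψ) (s, q) (0, w)).2, V (F Ψ (s, q)).1⟫| <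
        1 / ((k : ℝ) + 1) * ‖(fderiv ℝ (F Ψ) (s, q) (0, w)).2‖ := by
    intro k
    obtain ⟨s, hs, z, hz, b, hb, h1⟩ := hcon (1 / ((k : ℝ) + 1)) (by positivity)
    obtain ⟨q, hq, rfl⟩ := mem_L hz
    obtain ⟨w, hw, h2⟩ := tan_L hN hI hq hb
    exact ⟨s, hs, q, hq, w, hw, by rw [h2], by rw [h2]; exact h1⟩
  choose s hs q hq w hw h1 h2 using h0
  have hne : ∀ k, w k ≠ 0 := by
    intro k h
    have h3 := h2 k
    rw [h] at h3
    have h4 : ((0, 0) : ℝ × E m) = 0 := rfl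
    rw [h4, map_zero] at h3
    simp at h3
  have hn : ∀ k, 0 < ‖w k‖ := fun k => norm_pos_iff.2 (hne k)
  have hsp : ∀ k, ‖w k‖⁻¹ • w k ∈ Metric.sphere (0 : E m) 1 := fun k => by
    rw [mem_sphere_zero_iff_norm, norm_smul, norm_inv, norm_norm, inv_mul_cancel₀ (hn k).ne']
  have hcomp : IsCompact (Icc (0 : ℝ) 1 ×ˢ (N ×ˢ Metric.sphere (0 : E m) 1)) :=
    isCompact_Icc.prod (hc.prod (isCompact_sphere _ _))
  obtain ⟨⟨s₀, q₀, u⟩, ⟨hs₀, hq₀, hu⟩, φ, hφ, hlim⟩ := hcomp.tendsto_subseq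
    (x := fun k => (s k, q k, ‖w k‖⁻¹ • w k)) (fun k => ⟨hs k, hq k, hsp k⟩)
  have ls : Tendsto (fun k => s (φ k)) atTop (𝓝 s₀) := (continuous_fst.tendsto _).comp hlim
  have lr := (continuous_snd.tendsto _).comp hlim
  have lq : Tendsto (fun k => q (φ k)) atTop (𝓝 q₀) := (continuous_fst.tendsto _).comp lr
  have lu : Tendsto (fun k => ‖w (φ k)‖⁻¹ • w (φ k)) atTop (𝓝 u) :=
    (continuous_snd.tendsto _).comp lr
  have hu0 : u ≠ 0 := by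
    rintro rfl
    have : (0 : E m) ∈ Metric.sphere (0 : E m) 1 := hu
    simp at this
  have huT : u ∈ Tan N q₀ := by
    have h3 : Tendsto (fun k => ((q (φ k), ‖w (φ k)‖⁻¹ • w (φ k)) : E m × E m)) atTop
        (𝓝 (q₀, u)) := lq.prodMk_nhds lu
    exact ((hN.isClosed_tan hc.isClosed).mem_of_tendsto h3
      (Eventually.of_forall fun k => ⟨hq _, Tan.smul (hw _) _⟩)).2
  have hFc : Continuous (F Ψ) := (F_smooth hI).continuous
  have lF : Tendsto (fun k => F Ψ (s (φ k), q (φ k))) atTop (𝓝 (F Ψ (s₀, q₀))) :=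
    (hFc.tendsto _).comp (ls.prodMk_nhds lq)
  have lV : Tendsto (fun k => V (F Ψ (s (φ k), q (φ k))).1) atTop (𝓝 (V (F Ψ (s₀, q₀)).1)) :=
    (hV.continuous.tendsto _).comp ((continuous_fst.tendsto _).comp lF)
  have hDc : Continuous fun x : (ℝ × E m) × (ℝ × E m) => fderiv ℝ (F Ψ) x.1 x.2 :=
    ((F_smooth hI).continuous_fderiv (by simp)).comp continuous_fst |>.clm_apply continuous_snd
  have lD : Tendsto (fun k => fderiv ℝ (F Ψ) (s (φ k), q (φ k)) (0, ‖w (φ k)‖⁻¹ • w (φ k))) atTop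
      (𝓝 (fderiv ℝ (F Ψ) (s₀, q₀) (0, u))) :=
    (hDc.tendsto ((s₀, q₀), (0, u))).comp
      ((ls.prodMk_nhds lq).prodMk_nhds (tendsto_const_nhds.prodMk_nhds lu))
  have hsm : ∀ k, fderiv ℝ (F Ψ) (s k, q k) (0, ‖w k‖⁻¹ • w k) =
      ‖w k‖⁻¹ • fderiv ℝ (F Ψ) (s k, q k) (0, w k) := by
    intro k
    rw [← map_smul, Prod.smul_mk, smul_zero]
  have hφk : ∀ k : ℕ, (k : ℝ) ≤ (φ k : ℝ) := fun k => by exact_mod_cast hφ.id_le k
  have hmono : ∀ k : ℕ, 1 / ((φ k : ℝ) + 1) ≤ 1 / ((k : ℝ) + 1) := fun k =>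
    one_div_le_one_div_of_le (by positivity) (by linarith [hφk k])
  refine hu0 (key hN hI (hE s₀ hs₀) hq₀ huT ?_ ?_)
  · have l1 := (continuous_fst.tendsto _).comp lD
    refine tendsto_nhds_unique l1 (tendsto_const_nhds.congr fun k => ?_)
    simp only [Function.comp]
    rw [hsm, Prod.smul_fst, h1, smul_zero]
  · have l2 := (continuous_snd.tendsto _).comp lD
    refine lim_zero (l2.inner (𝕜 := ℝ) lV) l2.norm fun k => ?_
    simp only [Function.comp]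
    rw [hsm, Prod.smul_snd, real_inner_smul_left, abs_mul, norm_smul, abs_of_nonneg
      (by positivity : (0 : ℝ) ≤ ‖w (φ k)‖⁻¹), norm_inv, norm_norm]
    have h3 := (h2 (φ k)).le.trans (mul_le_mul_of_nonneg_right (hmono k) (norm_nonneg _))
    have h4 := mul_le_mul_of_nonneg_left h3 (by positivity : (0 : ℝ) ≤ ‖w (φ k)‖⁻¹)
    calc _ ≤ _ := h4
      _ = _ := by ring

/-- uniform positivity on the cone field -/
theorem uni_cone (hc : IsCompact N) {K : Set (E m × E m)} (hK : ConeField N K)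
    (hVc : Continuous V) (hV : ∀ q v, (q, v) ∈ K → v ≠ 0 → 0 < ⟪v, V q⟫) :
    ∃ ε : ℝ, 0 < ε ∧ ∀ q v, (q, v) ∈ K → ε * ‖v‖ ≤ ⟪v, V q⟫ := by
  set A : Set (E m × E m) := K ∩ (N ×ˢ Metric.sphere (0 : E m) 1) with hA
  have hAc : IsCompact A := (hc.prod (isCompact_sphere _ _)).inter_left hK.closed
  have hcont : Continuous fun x : E m × E m => ⟪x.2, V x.1⟫ :=
    continuous_snd.inner (hVc.comp continuous_fst)
  rcases A.eq_empty_or_nonempty with hAe | hAn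
  · refine ⟨1, one_pos, fun q v hv => ?_⟩
    rcases eq_or_ne v 0 with rfl | hv0
    · simp
    · have hn : 0 < ‖v‖ := norm_pos_iff.2 hv0
      have h1 : (q, ‖v‖⁻¹ • v) ∈ A := by
        refine ⟨hK.smul q v _ (by positivity) hv, (hK.sub hv).1, ?_⟩
        rw [mem_sphere_zero_iff_norm, norm_smul, norm_inv, norm_norm, inv_mul_cancel₀ hn.ne']
      rw [hAe] at h1
      exact absurd h1 (notMem_empty _)
  · obtain ⟨x, hx, hmin⟩ := hAc.exists_isMinOn hAn hcont.continuousOn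
    have hx0 : x.2 ≠ 0 := by
      intro h
      have h1 := hx.2.2
      rw [h] at h1
      simp at h1
    refine ⟨⟪x.2, V x.1⟫, hV x.1 x.2 hx.1 hx0, fun q v hv => ?_⟩
    rcases eq_or_ne v 0 with rfl | hv0
    · simp
    · have hn : 0 < ‖v‖ := norm_pos_iff.2 hv0
      have h1 : (q, ‖v‖⁻¹ • v) ∈ A := by
        refine ⟨hK.smul q v _ (by positivity) hv, (hK.sub hv).1, ?_⟩
        rw [mem_sphere_zero_iff_norm, norm_smul, norm_inv, norm_norm, inv_mul_cancel₀ hn.ne']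
      have h2 : ⟪x.2, V x.1⟫ ≤ ⟪‖v‖⁻¹ • v, V q⟫ := hmin h1
      rw [real_inner_smul_left] at h2
      calc ⟪x.2, V x.1⟫ * ‖v‖ ≤ (‖v‖⁻¹ * ⟪v, V q⟫) * ‖v‖ := by gcongr
        _ = ⟪v, V q⟫ := by field_simp

end Pool.Agent.H84.CK
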